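import Pool.Agent.H96.F2.HN

/-! Quotient families and the transfer to the relative forms. -/

set_option autoImplicit false

namespace F2

open H2INV Finset

noncomputable section

namespace B

variable {E : Type} [AddCommGroup E]

/-- quotient family -/
def qt (U : Fam E) (W : AddSubgroup E) : Fam (E ⧸ W) where
  Om := U.Om
  fin := U.fin
  m := U.m
  hm := U.hm
  X := fun w => q W (U.X w)
  St := U.St
  J := U.J

instance twoQuot [Two E] (W : AddSubgroup E) : Two (E ⧸ W) := ⟨fun x => by
  obtain ⟨y, rfl⟩ := QuotientAddGroup.mk_surjective x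
  rw [← QuotientAddGroup.mk_add, Two.two]; rfl⟩

lemma In_qt {U : Fam E} {V : AddSubgroup E} (W : AddSubgroup E) (h : In U V) :
    In (qt U W) (V.map (QuotientAddGroup.mk' W)) := by
  intro v w hvw
  refine ⟨U.X v - U.X w, h v w hvw, ?_⟩
  rw [map_sub]; rfl

lemma ls_comap [Finite E] (W : AddSubgroup E) (K : AddSubgroup (E ⧸ W)) :
    ls (K.comap (QuotientAddGroup.mk' W)) = ls K + ls W := by
  have h1 := AddSubgroup.card_mul_index (K.comap (QuotientAddGroup.mk' W))
  have h2 := AddSubgroup.card_mul_index K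
  have h3 := AddSubgroup.card_eq_card_quotient_mul_card_addSubgroup W
  have h4 := AddSubgroup.index_comap_of_surjective K (QuotientAddGroup.mk'_surjective W)
  rw [h4] at h1
  have hi : 0 < K.index := Nat.pos_of_ne_zero AddSubgroup.index_ne_zero_of_finite
  have h5 : Nat.card (K.comap (QuotientAddGroup.mk' W)) = Nat.card K * Nat.card W := by
    have : Nat.card (K.comap (QuotientAddGroup.mk' W)) * K.index
        = (Nat.card K * Nat.card W) * K.index := by
      rw [h1, h3, ← h2]; ring
    exact Nat.eq_of_mul_eq_mul_right hi this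
  unfold ls
  rw [h5]
  have p1 : (0 : ℝ) < Nat.card W := by exact_mod_cast Nat.card_pos
  have p2 : (0 : ℝ) < Nat.card K := by exact_mod_cast Nat.card_pos
  push_cast
  rw [Real.log_mul p2.ne' p1.ne']

lemma comap_map {W V : AddSubgroup E} (h : W ≤ V) :
    (V.map (QuotientAddGroup.mk' W)).comap (QuotientAddGroup.mk' W) = V := by
  apply AddSubgroup.comap_map_eq_self
  rw [QuotientAddGroup.ker_mk']; exact h

lemma ls_map [Finite E] {W V : AddSubgroup E} (h : W ≤ V) :
    ls (V.map (QuotientAddGroup.mk' W)) = ls V - ls W := by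
  have := ls_comap W (V.map (QuotientAddGroup.mk' W))
  rw [comap_map h] at this
  linarith

lemma H_qt (U : Fam E) (W : AddSubgroup E) : H (qt U W) = hh U W - ls W := by
  unfold hh
  rw [add_sub_cancel_right]; rfl

lemma hh_qt [Finite E] (U : Fam E) (W : AddSubgroup E) (K : AddSubgroup (E ⧸ W)) :
    hh (qt U W) K = hh U (K.comap (QuotientAddGroup.mk' W)) - ls W := by
  unfold hh
  rw [ls_comap]
  have : cent (qt U W).m (fun w => q K ((qt U W).X w)) (qt U W).J
      = cent U.m (fun w => q (K.comap (QuotientAddGroup.mk' W)) (U.X w)) U.J := by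
    refine cent_congr _ (fun _ _ => Iff.rfl) fun w w' _ => ?_
    rw [q_eq, q_eq, AddSubgroup.mem_comap, map_sub]
    rfl
  rw [this]; ring

lemma H_add_qt (U Y : Fam E) (W : AddSubgroup E) :
    H (add (qt U W) (qt Y W)) = hh (add U Y) W - ls W := by
  unfold hh
  rw [add_sub_cancel_right]; rfl

/-- absolute form of the hypothesis of Lemma A -/
def Hyp (a l : ℝ) : Prop :=
  ∀ (E : Type) [AddCommGroup E] [Finite E] [Two E] (V : AddSubgroup E) (X Y : Fam E) (x : ℝ),
    0 ≤ x → In X V → In Y V → Spr X V x → ls V - H X = x * ls V →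
    ls V - H (add X Y) ≤ x * (a * ls V + l * (ls V - H Y))

theorem hypRel_of_hyp {a l : ℝ} (h : Hyp a l) : HypRel a l := by
  intro E _ _ _ V W X Y x hx hWV hX hY hsp heq
  have h1 := h (E ⧸ W) (V.map (QuotientAddGroup.mk' W)) (qt X W) (qt Y W) x hx
    (In_qt W hX) (In_qt W hY) ?_ ?_
  · rw [H_add_qt, ls_map hWV, H_qt] at h1
    have e1 : ls V - ls W - (hh (add X Y) W - ls W) = ls V - hh (add X Y) W := by ring
    have e2 : ls V - ls W - (hh Y W - ls W) = ls V - hh Y W := by ring
    rw [e1, e2] at h1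
    exact h1
  · intro K hK
    rw [hh_qt, ls_map hWV]
    have hk1 : W ≤ K.comap (QuotientAddGroup.mk' W) := by
      intro w hw
      rw [AddSubgroup.mem_comap]
      have : (QuotientAddGroup.mk' W) w = 0 := by
        rw [← AddMonoidHom.mem_ker, QuotientAddGroup.ker_mk']; exact hw
      rw [this]; exact K.zero_mem
    have hk2 : K.comap (QuotientAddGroup.mk' W) ≤ V := by
      have := AddSubgroup.comap_mono (f := QuotientAddGroup.mk' W) hK
      rwa [comap_map hWV] at this
    have h2 := hsp _ hk1 hk2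
    rw [ls_comap] at h2
    have e1 : ls V - ls W - (hh X (K.comap (QuotientAddGroup.mk' W)) - ls W)
        = ls V - hh X (K.comap (QuotientAddGroup.mk' W)) := by ring
    have e2 : ls V - ls W - ls K = ls V - (ls K + ls W) := by ring
    rw [e1, e2]; exact h2
  · rw [H_qt, ls_map hWV, ← heq]; ring

/-- absolute form of the current bound -/
def Lb (lb : ℝ → ℝ) : Prop :=
  ∀ (E : Type) [AddCommGroup E] [Finite E] [Two E] (V : AddSubgroup E) (X Z : Fam E) (z : ℝ),
    0 ≤ z → z ≤ 1 → In X V → In Z V → Spr Z V z →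
    ls V - H (add X Z) ≤ lb z * (ls V - H X)

theorem lbRel_of_lb {lb : ℝ → ℝ} (h : Lb lb) : LbRel lb := by
  intro E _ _ _ V W X Z z hz hz1 hWV hX hZ hsp
  have h1 := h (E ⧸ W) (V.map (QuotientAddGroup.mk' W)) (qt X W) (qt Z W) z hz hz1
    (In_qt W hX) (In_qt W hZ) ?_
  · rw [H_add_qt, ls_map hWV, H_qt] at h1
    have e1 : ls V - ls W - (hh (add X Z) W - ls W) = ls V - hh (add X Z) W := by ring
    have e2 : ls V - ls W - (hh X W - ls W) = ls V - hh X W := by ring
    rw [e1, e2] at h1
    exact h1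
  · intro K hK
    rw [hh_qt, ls_map hWV]
    have hk1 : W ≤ K.comap (QuotientAddGroup.mk' W) := by
      intro w hw
      rw [AddSubgroup.mem_comap]
      have : (QuotientAddGroup.mk' W) w = 0 := by
        rw [← AddMonoidHom.mem_ker, QuotientAddGroup.ker_mk']; exact hw
      rw [this]; exact K.zero_mem
    have hk2 : K.comap (QuotientAddGroup.mk' W) ≤ V := by
      have := AddSubgroup.comap_mono (f := QuotientAddGroup.mk' W) hK
      rwa [comap_map hWV] at this
    have h2 := hsp _ hk1 hk2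
    rw [ls_comap] at h2
    have e1 : ls V - ls W - (hh Z (K.comap (QuotientAddGroup.mk' W)) - ls W)
        = ls V - hh Z (K.comap (QuotientAddGroup.mk' W)) := by ring
    have e2 : ls V - ls W - ls K = ls V - (ls K + ls W) := by ring
    rw [e1, e2]; exact h2

/-- LEMMA A in its usable form (`e = 0`): for `y`-spread `Y`. -/
theorem lemmaA' {a l : ℝ} (ha : 0 ≤ a) (hl : 0 ≤ l) (hyp : Hyp a l) (E : Type) [AddCommGroup E]
    [Finite E] [Two E] (V : AddSubgroup E) (X Y : Fam E) (y : ℝ) (hy : 0 ≤ y) (hX : In X V)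
    (hY : In Y V) (hsY : Spr Y V y) : ls V - H (add X Y) ≤ (a + l * y) * (ls V - H X) := by
  have h := lemmaA ha hl (hypRel_of_hyp hyp) E (Nat.card V) V le_rfl X Y 1 y 0 zero_le_one hy
    le_rfl hX hY (fun W hW => by
      have := ls_le_hh X W
      linarith) (fun W hW => by rw [add_zero]; exact hsY W hW)
  simpa using h

/-- LEMMA B in its usable form (`e = 0`): for `x`-spread `X`. -/
theorem lemmaB' {a l : ℝ} {lb : ℝ → ℝ} (hlb : Lb lb)
    (hlb0 : ∀ z, 0 ≤ z → z ≤ 1 → 0 ≤ lb z)
    (hmono : ∀ z z', 0 ≤ z → z ≤ z' → z' ≤ 1 → lb z ≤ lb z')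
    (hmaj : ∀ z, 0 ≤ z → z ≤ 1 → (lb z + lb z ^ 2) / 2 ≤ a + l * z) (E : Type)
    [AddCommGroup E] [Finite E] [Two E] (V : AddSubgroup E) (X Z : Fam E) (x : ℝ) (hx : 0 ≤ x)
    (hX : In X V) (hZ : In Z V) (hsX : Spr X V x) :
    (ls V - H (add X Z)) + (ls V - H (add X (add Z Z))) ≤
      2 * x * (a * ls V + l * (ls V - H Z)) := by
  have h := lemmaB (lbRel_of_lb hlb) hlb0 hmono hmaj E (Nat.card V) V le_rfl X Z x 0 1 hx le_rfl
    zero_le_one le_rfl hX hZ (fun W hW => by
      have := ls_le_hh Z W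
      linarith) (fun W hW => by rw [add_zero]; exact hsX W hW)
  simpa using h

end B

end

end F2
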