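import Pool.Agent.H96.F2.Pop

/-! Representation counts of `k`-fold sums. -/

set_option autoImplicit false

namespace Pool.Agent.H96.F2

open H2INV Finset

noncomputable section

variable {W : Type} [AddCommGroup W] [Fintype W] [DecidableEq W]

/-- number of `a ∈ A^k` with sum `y` -/
def rk (A : Finset W) (k : ℕ) (y : W) : ℕ :=
  ((Fintype.piFinset fun _ : Fin k => A).filter fun a => ∑ i, a i = y).card

omit [Fintype W] in
lemma rk_succ (A : Finset W) (k : ℕ) (y : W) : rk A (k + 1) y = ∑ a ∈ A, rk A k (y - a) := by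
  classical
  unfold rk
  rw [← Finset.card_sigma]
  refine Finset.card_bij' (fun f _ => (⟨f 0, Fin.tail f⟩ : Σ _ : W, Fin k → W))
    (fun g _ => Fin.cons g.1 g.2) ?_ ?_ ?_ ?_
  · intro f hf
    simp only [Finset.mem_filter, Fintype.mem_piFinset] at hf
    simp only [Finset.mem_sigma, Finset.mem_filter, Fintype.mem_piFinset]
    refine ⟨hf.1 0, fun i => hf.1 _, ?_⟩
    rw [← hf.2, Fin.sum_univ_succ]
    simp [Fin.tail]
  · intro g hg
    simp only [Finset.mem_sigma, Finset.mem_filter, Fintype.mem_piFinset] at hg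
    simp only [Finset.mem_filter, Fintype.mem_piFinset]
    refine ⟨fun i => ?_, ?_⟩
    · refine Fin.cases ?_ (fun j => ?_) i
      · exact hg.1
      · simpa using hg.2.1 j
    · rw [Fin.sum_univ_succ]
      simp [hg.2.2]
  · intro f _
    simp
  · intro g _
    simp

lemma rk_one (A : Finset W) (y : W) : rk A 1 y = if y ∈ A then 1 else 0 := by
  classical
  rw [rk_succ]
  have h : ∀ a ∈ A, rk A 0 (y - a) = if a = y then 1 else 0 := by
    intro a _
    unfold rk
    by_cases hya : a = y
    · subst hya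
      rw [if_pos rfl, Finset.card_eq_one]
      refine ⟨Fin.elim0, ?_⟩
      ext f
      have : f = Fin.elim0 := Subsingleton.elim _ _
      subst this
      simp
      exact Subsingleton.elim _ _
    · rw [if_neg hya, Finset.card_eq_zero, Finset.filter_eq_empty_iff]
      intro f _ hf
      simp only [Finset.univ_eq_empty, Finset.sum_empty] at hf
      exact hya (sub_eq_zero.1 hf.symm).symm
  rw [Finset.sum_congr rfl h, Finset.sum_ite_eq']

/-- number of pairs `(a, b) ∈ A^k × A^k` with `∑ a - ∑ b = v` -/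
lemma card_pairs (A : Finset W) (k : ℕ) (v : W) :
    (((Fintype.piFinset fun _ : Fin k => A) ×ˢ (Fintype.piFinset fun _ : Fin k => A)).filter
      fun p => v = ∑ i, p.1 i - ∑ i, p.2 i).card = ∑ y, rk A k y * rk A k (y + v) := by
  classical
  have h : ∀ y, rk A k y * rk A k (y + v)
      = ((((Fintype.piFinset fun _ : Fin k => A) ×ˢ (Fintype.piFinset fun _ : Fin k => A)).filter
      fun p => v = ∑ i, p.1 i - ∑ i, p.2 i).filter fun p => ∑ i, p.2 i = y).card := by
    intro y
    rw [mul_comm]
    unfold rk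
    rw [← Finset.card_product]
    congr 1
    ext ⟨a, b⟩
    simp only [Finset.mem_product, Finset.mem_filter]
    constructor
    · rintro ⟨⟨h1, h2⟩, h3, h4⟩
      exact ⟨⟨⟨h1, h3⟩, by rw [h2, h4]; abel⟩, h4⟩
    · rintro ⟨⟨⟨h1, h3⟩, h2⟩, h4⟩
      exact ⟨⟨h1, by rw [h2, h4]; abel⟩, h3, h4⟩
  rw [Finset.sum_congr rfl fun y _ => h y]
  exact (Finset.card_eq_sum_card_fiberwise fun _ _ => Finset.mem_univ _)

omit [DecidableEq W] [Fintype W] in
lemma rk_zero [DecidableEq W] (A : Finset W) (y : W) : rk A 0 y = if y = 0 then 1 else 0 := by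
  classical
  unfold rk
  by_cases hya : y = 0
  · subst hya
    rw [if_pos rfl, Finset.card_eq_one]
    refine ⟨Fin.elim0, ?_⟩
    ext f
    have : f = Fin.elim0 := Subsingleton.elim _ _
    subst this
    simp
    exact Subsingleton.elim _ _
  · rw [if_neg hya, Finset.card_eq_zero, Finset.filter_eq_empty_iff]
    intro f _ hf
    simp only [Finset.univ_eq_empty, Finset.sum_empty] at hf
    exact hya hf.symm

lemma rk_add (A : Finset W) (k l : ℕ) (v : W) :
    rk A (k + l) v = ∑ y, rk A k y * rk A l (v - y) := by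
  classical
  induction l generalizing v with
  | zero =>
    have : ∀ y, rk A k y * rk A 0 (v - y) = if y = v then rk A k y else 0 := by
      intro y
      rw [rk_zero]
      have h : (v - y = 0) ↔ (y = v) := by rw [sub_eq_zero]; exact eq_comm
      simp only [h]
      split_ifs <;> simp
    simp only [this, Finset.sum_ite_eq', Finset.mem_univ, if_true]
    rfl
  | succ l ih =>
    rw [← add_assoc, rk_succ]
    simp only [ih]
    rw [Finset.sum_comm]
    refine Finset.sum_congr rfl fun y _ => ?_
    rw [rk_succ, Finset.mul_sum]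
    refine Finset.sum_congr rfl fun a _ => ?_
    rw [sub_right_comm]

/-- law of the sum of two independent variables -/
lemma law_add {Om Om' : Type*} [Fintype Om] [Fintype Om'] (m : Om → ℝ) (m' : Om' → ℝ)
    (X : Om → W) (X' : Om' → W) (y : W) :
    law (prodPM m m') (fun w => X w.1 + X' w.2) y = ∑ a, law m' X' a * law m X (y - a) := by
  classical
  rw [sum_law_mul m' X' (fun a => law m X (y - a))]
  unfold law prodPM
  rw [Fintype.sum_prod_type_right]
  refine Finset.sum_congr rfl fun w' _ => ?_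
  rw [Finset.mul_sum]
  refine Finset.sum_congr rfl fun w _ => ?_
  have h : (X w + X' w' = y) ↔ (X w = y - X' w') := eq_sub_iff_add_eq.symm
  simp only [h]
  split_ifs <;> ring

/-- the laws of iterated sums of uniform elements of `A` -/
lemma law_step (A : Finset W) (hA : A.Nonempty) {Om : Type*} [Fintype Om] (m : Om → ℝ)
    (X : Om → W) (k : ℕ) (h : ∀ y, law m X y = rk A k y / (A.card : ℝ) ^ k) {Om' : Type*}
    [Fintype Om'] (m' : Om' → ℝ) (X' : Om' → W)
    (h' : ∀ y, law m' X' y = if y ∈ A then 1 / (A.card : ℝ) else 0) (y : W) :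
    law (prodPM m m') (fun w => X w.1 + X' w.2) y = rk A (k + 1) y / (A.card : ℝ) ^ (k + 1) := by
  classical
  have hc : (0 : ℝ) < A.card := by exact_mod_cast hA.card_pos
  rw [law_add, rk_succ]
  push_cast
  rw [Finset.sum_div, ← Finset.sum_subset (Finset.subset_univ A)]
  · refine Finset.sum_congr rfl fun a ha => ?_
    rw [h, h', if_pos ha, pow_succ]
    field_simp
  · intro a _ ha
    rw [h', if_neg ha, zero_mul]

/-- from laws to counts -/
lemma count_of_law (A : Finset W) (hA : A.Nonempty) (k : ℕ) (p : W → ℝ)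
    (hp : ∀ y, p y = rk A k y / (A.card : ℝ) ^ k) (c : ℝ) (v : W)
    (h : c / (Nat.card W : ℝ) ≤ ∑ y, p y * p (y + v)) :
    c * (A.card : ℝ) ^ (2 * k) / (Nat.card W : ℝ) ≤
      ((((Fintype.piFinset fun _ : Fin k => A) ×ˢ (Fintype.piFinset fun _ : Fin k => A)).filter
      fun p => v = ∑ i, p.1 i - ∑ i, p.2 i).card : ℝ) := by
  classical
  have hc : (0 : ℝ) < A.card := by exact_mod_cast hA.card_pos
  rw [card_pairs]
  push_cast
  have h1 : ∑ y, p y * p (y + v)
      = (∑ y, (rk A k y : ℝ) * rk A k (y + v)) / (A.card : ℝ) ^ (2 * k) := by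
    rw [Finset.sum_div]
    refine Finset.sum_congr rfl fun y _ => ?_
    rw [hp, hp, two_mul, pow_add]
    field_simp
  rw [h1, le_div_iff₀ (by positivity)] at h
  calc c * (A.card : ℝ) ^ (2 * k) / (Nat.card W : ℝ)
      = c / (Nat.card W : ℝ) * (A.card : ℝ) ^ (2 * k) := by ring
    _ ≤ _ := h

/-- the same in characteristic two, with `2k` summands -/
lemma count_of_law' (A : Finset W) (hA : A.Nonempty) (k : ℕ) (p : W → ℝ)
    (h2 : ∀ y : W, y + y = 0)
    (hp : ∀ y, p y = rk A k y / (A.card : ℝ) ^ k) (c : ℝ) (v : W)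
    (h : c / (Nat.card W : ℝ) ≤ ∑ y, p y * p (y + v)) :
    c * (A.card : ℝ) ^ (2 * k) / (Nat.card W : ℝ) ≤ (rk A (2 * k) v : ℝ) := by
  classical
  refine (count_of_law A hA k p hp c v h).trans (le_of_eq ?_)
  rw [card_pairs, two_mul, rk_add]
  congr 1
  refine Finset.sum_congr rfl fun y _ => ?_
  congr 2
  have := h2 y
  have h3 : v - y = y + v - (y + y) := by abel
  rw [h3, this, sub_zero]

end

end Pool.Agent.H96.F2
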