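import Pool.Agent.H9.F2.Fam
import Pool.Agent.H96.F2.Rep

/-! Block B: the Bogolyubov deduction from (E''). -/

set_option autoImplicit false

namespace F2

open H2INV Finset Pool.Agent.H96.F2

noncomputable section

namespace B

variable {E : Type} [AddCommGroup E]

lemma q_eq (V : AddSubgroup E) (x y : E) : q V x = q V y ↔ x - y ∈ V := by
  unfold q
  rw [eq_comm, QuotientAddGroup.eq, neg_add_eq_sub]

/-- given the class mod `V` there is at most `log |V|` of entropy left -/
lemma H_le_hh [Finite E] (U : Fam E) (V : AddSubgroup E) : H U ≤ hh U V := by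
  classical
  have hne : ∀ c : E ⧸ V, ∃ x : E, q V x = c := fun c => QuotientAddGroup.mk_surjective c
  choose s hs using hne
  have h1 : ∀ w, U.X w - s (q V (U.X w)) ∈ V := fun w => by
    rw [← q_eq, hs]
  let Y : U.Om → V := fun w => ⟨U.X w - s (q V (U.X w)), h1 w⟩
  have : Fintype V := Fintype.ofFinite V
  have e1 : cent U.m U.X (pr (fun w => q V (U.X w)) U.J)
      = cent U.m Y (pr (fun w => q V (U.X w)) U.J) := by
    refine cent_congr _ (fun _ _ => Iff.rfl) fun w w' h => ?_
    simp only [pr_eq] at h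
    simp only [Y, Subtype.mk.injEq]
    rw [h.1, sub_left_inj]
  have e2 := cent_le_log_card U.hm Y (pr (fun w => q V (U.X w)) U.J)
  have e3 := cent_chain U.m U.X (fun w => q V (U.X w)) U.J
  have e4 : cent U.m U.X U.J ≤ cent U.m (pr U.X fun w => q V (U.X w)) U.J :=
    cent_mono U.hm fun w w' _ h => ((pr_eq _ _ _ _).1 h).1
  rw [← e1, ← Nat.card_eq_fintype_card] at e2
  unfold H hh ls
  linarith

lemma hh_top (U : Fam E) : hh U ⊤ = ls (⊤ : AddSubgroup E) := by
  unfold hh
  have : cent U.m (fun w => q (⊤ : AddSubgroup E) (U.X w)) U.J = 0 := by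
    have h1 : ∀ w w', q (⊤ : AddSubgroup E) (U.X w) = q (⊤ : AddSubgroup E) (U.X w') :=
      fun w w' => by rw [q_eq]; trivial
    unfold cent
    rw [ent_congr U.m (f := pr (fun w => q (⊤ : AddSubgroup E) (U.X w)) U.J) (g := U.J), sub_self]
    intro w w'
    simp only [pr_eq]
    exact ⟨fun h => h.2, fun h => ⟨h1 _ _, h⟩⟩
  rw [this, zero_add]

/-- restriction -/
lemma hh_rs (U : Fam E) {V W : AddSubgroup E} (h : W ≤ V) :
    hh (rs U V) W = hh U W - hh U V + ls V := by
  have h1 := cent_chain U.m (fun w => q W (U.X w)) (fun w => q V (U.X w)) U.J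
  have h2 : cent U.m (pr (fun w => q W (U.X w)) fun w => q V (U.X w)) U.J
      = cent U.m (fun w => q W (U.X w)) U.J := by
    refine cent_congr _ (fun _ _ => Iff.rfl) fun w w' _ => ?_
    simp only [pr_eq, q_eq]
    exact ⟨fun h' => h'.1, fun h' => ⟨h', h h'⟩⟩
  have h3 : hh (rs U V) W = cent U.m (fun w => q W (U.X w)) (pr (fun w => q V (U.X w)) U.J)
      + ls W := rfl
  rw [h3]
  unfold hh
  linarith

lemma H_rs (U : Fam E) (V : AddSubgroup E) : H (rs U V) = H U - hh U V + ls V := by
  have h1 := cent_chain U.m U.X (fun w => q V (U.X w)) U.J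
  have h2 : cent U.m (pr U.X fun w => q V (U.X w)) U.J = cent U.m U.X U.J := by
    refine cent_congr _ (fun _ _ => Iff.rfl) fun w w' _ => ?_
    simp only [pr_eq]
    exact ⟨fun h' => h'.1, fun h' => ⟨h', by rw [h']⟩⟩
  have h3 : H (rs U V) = cent U.m U.X (pr (fun w => q V (U.X w)) U.J) := rfl
  rw [h3]
  unfold hh H
  linarith

lemma In_rs (U : Fam E) (V : AddSubgroup E) : In (rs U V) V := by
  intro v w h
  have h1 : q V (U.X v) = q V (U.X w) := congrArg Prod.fst h
  exact (q_eq V _ _).1 h1

lemma In_add {U W : Fam E} {V : AddSubgroup E} (h1 : In U V) (h2 : In W V) : In (add U W) V := by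
  intro v w h
  have a1 := h1 v.1 w.1 (congrArg Prod.fst h)
  have a2 := h2 v.2 w.2 (congrArg Prod.snd h)
  have : (add U W).X v - (add U W).X w = (U.X v.1 - U.X w.1) + (W.X v.2 - W.X w.2) := by
    simp only [add]; abel
  rw [this]
  exact V.add_mem a1 a2

/-- threshold subgroup in the whole group -/
lemma threshold0 [Finite E] (U : Fam E) {δ : ℝ} (hδ : 0 < δ) :
    ∃ V : AddSubgroup E, δ * (ls (⊤ : AddSubgroup E) - ls V) ≤ ls (⊤ : AddSubgroup E) - H U ∧
      ls V - H (rs U V) ≤ ls (⊤ : AddSubgroup E) - H U ∧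
      Spr (rs U V) V δ := by
  classical
  have : Finite (AddSubgroup E) := inferInstance
  obtain ⟨V, hV⟩ := Finite.exists_min (fun V : AddSubgroup E => hh U V - δ * ls V)
  have h0 := hV ⊤
  rw [hh_top] at h0
  have h1 := H_le_hh U V
  refine ⟨V, by linarith, ?_, ?_⟩
  · rw [H_rs]
    have h2 : ls V ≤ ls (⊤ : AddSubgroup E) := by
      unfold ls
      refine Real.log_le_log (by exact_mod_cast Nat.card_pos) ?_
      exact_mod_cast Nat.card_le_card_of_injective _
        (AddSubgroup.inclusion_injective (le_top : V ≤ ⊤))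
    nlinarith
  · intro W hW
    rw [hh_rs U hW]
    have := hV W
    linarith

/-- iterated sums -/
def S (U : Fam E) : ℕ → Fam E
  | 0 => U
  | k + 1 => add U (S U k)

lemma In_S {U : Fam E} {V : AddSubgroup E} (h : In U V) (k : ℕ) : In (S U k) V := by
  induction k with
  | zero => exact h
  | succ k ih => exact In_add h ih

/-- the statement (E'') with constant `C` -/
def EPP (C : ℝ) : Prop :=
  ∀ (E : Type) [AddCommGroup E] [Finite E] [Two E] (V : AddSubgroup E) (X W : Fam E) (s : ℝ),
    0 < s → In X V → In W V → Spr X V s → ls V - H (add X W) ≤ C * s * (ls V - H W)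

lemma S_bound {C : ℝ} (hC : 0 ≤ C) (hE : EPP C) [Finite E] [Two E] (V : AddSubgroup E)
    (X : Fam E) {s : ℝ} (hs : 0 < s) (hX : In X V) (hsp : Spr X V s) (k : ℕ) :
    ls V - H (S X k) ≤ (C * s) ^ k * (ls V - H X) := by
  induction k with
  | zero => simp [S]
  | succ k ih =>
    have h1 := hE E V X (S X k) s hs hX (In_S hX k) hsp
    have h2 : C * s * (ls V - H (S X k)) ≤ C * s * ((C * s) ^ k * (ls V - H X)) :=
      mul_le_mul_of_nonneg_left ih (by positivity)
    calc ls V - H (S X (k + 1)) ≤ C * s * (ls V - H (S X k)) := h1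
      _ ≤ C * s * ((C * s) ^ k * (ls V - H X)) := h2
      _ = (C * s) ^ (k + 1) * (ls V - H X) := by ring

/-- uniform element of `A` -/
def uA (A : Finset E) (hA : A.Nonempty) : Fam E where
  Om := A
  fin := inferInstance
  m := fun _ => (Fintype.card A : ℝ)⁻¹
  hm := by
    have : Nonempty A := hA.to_subtype
    exact isPM_unif' A
  X := fun a => a
  St := Unit
  J := fun _ => ()

lemma H_uA (A : Finset E) (hA : A.Nonempty) : H (uA A hA) = Real.log A.card := by
  classical
  have hne : Nonempty A := hA.to_subtype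
  have hc : (0 : ℝ) < A.card := by exact_mod_cast hA.card_pos
  have h1 : ent (uA A hA).m (pr (uA A hA).X (uA A hA).J) = Real.log A.card := by
    unfold ent
    have : ∀ w, fib (uA A hA).m (pr (uA A hA).X (uA A hA).J) w = (A.card : ℝ)⁻¹ := by
      intro w
      unfold fib
      rw [Finset.sum_eq_single w]
      · simp [uA]
      · intro b _ hb
        rw [if_neg]
        rw [pr_eq]
        exact fun h => hb (Subtype.ext h.1)
      · simp
    simp only [this, Real.log_inv, neg_neg]
    rw [← Finset.sum_mul, (uA A hA).hm.sum_one, one_mul]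
  have h2 : ent (uA A hA).m (uA A hA).J = 0 := ent_const (uA A hA).hm fun _ _ => rfl
  unfold H cent
  rw [h1, h2, sub_zero]

lemma law_uA [DecidableEq E] (A : Finset E) (hA : A.Nonempty) (y : E) :
    law (uA A hA).m (uA A hA).X y = if y ∈ A then 1 / (A.card : ℝ) else 0 := by
  classical
  unfold law
  by_cases hy : y ∈ A
  · rw [if_pos hy, Finset.sum_eq_single ⟨y, hy⟩]
    · simp [uA]
    · intro b _ hb
      rw [if_neg]
      simp only [uA]
      exact fun h => hb (Subtype.ext h)
    · intro h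
      exact absurd (Finset.mem_univ _) h
  · rw [if_neg hy]
    refine Finset.sum_eq_zero fun w _ => ?_
    rw [if_neg]
    simp only [uA]
    exact fun h => hy (h ▸ w.2)

lemma law_S [Fintype E] [DecidableEq E] (A : Finset E) (hA : A.Nonempty) (V : AddSubgroup E)
    (k : ℕ) (y : E) : law (S (rs (uA A hA) V) k).m (S (rs (uA A hA) V) k).X y
      = rk A (k + 1) y / (A.card : ℝ) ^ (k + 1) := by
  classical
  induction k generalizing y with
  | zero =>
    have h := law_uA A hA y
    rw [rk_one, zero_add, pow_one]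
    refine h.trans ?_
    split_ifs <;> simp
  | succ k ih =>
    have h1 : law (S (rs (uA A hA) V) (k + 1)).m (S (rs (uA A hA) V) (k + 1)).X y
        = law (prodPM (S (rs (uA A hA) V) k).m (uA A hA).m)
          (fun w => (S (rs (uA A hA) V) k).X w.1 + (uA A hA).X w.2) y := by
      have h2 := law_eq_of_mp (mp_swap (S (rs (uA A hA) V) k).m (uA A hA).m)
        (fun w => (uA A hA).X w.1 + (S (rs (uA A hA) V) k).X w.2)
      change law (prodPM (uA A hA).m (S (rs (uA A hA) V) k).m)
        (fun w => (uA A hA).X w.1 + (S (rs (uA A hA) V) k).X w.2) y = _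
      rw [← h2]
      congr 1
      funext w
      simp only [Prod.fst_swap, Prod.snd_swap]
      rw [add_comm]
    rw [h1]
    exact law_step A hA _ _ (k + 1) ih _ _ (law_uA A hA) y

/-- entropy of the law of the sum, relative to the classes of the sum -/
lemma rel_S [Fintype E] (U : Fam E) (V : AddSubgroup E) (hU : In U V) :
    H U ≤ ent (law U.m U.X) id - ent (law U.m U.X) (q V) := by
  classical
  have h1 : ent (law U.m U.X) id = ent U.m U.X := by
    have : MP U.m U.X (law U.m U.X) := fun _ => rfl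
    exact (ent_comp_of_mp this id).symm
  have h2 : ent (law U.m U.X) (q V) = ent U.m (fun w => q V (U.X w)) := by
    have : MP U.m U.X (law U.m U.X) := fun _ => rfl
    exact (ent_comp_of_mp this (q V)).symm
  have h3 : cent U.m U.X U.J ≤ cent U.m U.X (fun w => q V (U.X w)) :=
    cent_anti U.hm U.X fun w w' h => (q_eq V _ _).2 (hU w w' h)
  have h4 : ent U.m (pr U.X fun w => q V (U.X w)) = ent U.m U.X := ent_congr _ fun w w' => by
    simp only [pr_eq]
    exact ⟨fun h => h.1, fun h => ⟨h, by rw [h]⟩⟩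
  unfold H
  rw [h1, h2]
  refine h3.trans ?_
  unfold cent
  rw [h4]

/-- THE DEDUCTION in a finite group of exponent two. -/
theorem bog {C : ℝ} (hC : 1 ≤ C) (hE : EPP C) (E : Type) [AddCommGroup E] [Fintype E]
    [DecidableEq E] [Two E] (A : Finset E) (hA : A.Nonempty) (k : ℕ) (hk : 1 ≤ k) :
    ∃ V : AddSubgroup E,
      (ls (⊤ : AddSubgroup E) - ls V) ≤
        400 * C * (Real.log ((Nat.card E : ℝ) / A.card)) ^ (1 + 1 / (k : ℝ)) ∧
      ∀ v ∈ V, (4 / 5) * (A.card : ℝ) ^ (2 * (k + 1)) / (Nat.card E : ℝ)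
        ≤ (rk A (2 * (k + 1)) v : ℝ) := by
  classical
  have hc : (0 : ℝ) < A.card := by exact_mod_cast hA.card_pos
  have hcE : (0 : ℝ) < Nat.card E := by
    have : Nonempty E := ⟨0⟩
    exact_mod_cast Nat.card_pos
  set L : ℝ := Real.log ((Nat.card E : ℝ) / A.card) with hL
  have hkr : (0 : ℝ) < k := by exact_mod_cast hk
  have hlsT : ls (⊤ : AddSubgroup E) = Real.log (Nat.card E) := by
    unfold ls
    congr 2
    exact Nat.card_congr AddSubgroup.topEquiv.toEquiv
  have hLe : ls (⊤ : AddSubgroup E) - H (uA A hA) = L := by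
    rw [hlsT, H_uA, hL, Real.log_div hcE.ne' hc.ne']
  have hL0 : 0 ≤ L := by
    rw [hL]
    refine Real.log_nonneg ?_
    rw [le_div_iff₀ hc, one_mul]
    have : A.card ≤ Nat.card E := by
      rw [Nat.card_eq_fintype_card]; exact Finset.card_le_univ A
    exact_mod_cast this
  -- the threshold
  obtain ⟨δ, hδ, hδ1, hδ2⟩ : ∃ δ : ℝ, 0 < δ ∧ (C * δ) ^ k * L ≤ 1 / 400 ∧
      L ≤ δ * (400 * C * L ^ (1 + 1 / (k : ℝ))) := by
    rcases hL0.eq_or_lt with h0 | h0
    · refine ⟨1, one_pos, ?_, ?_⟩
      · rw [← h0]; norm_num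
      · rw [← h0, Real.zero_rpow (by positivity)]; simp
    · refine ⟨1 / (C * (400 * L) ^ (1 / (k : ℝ))), by positivity, ?_, ?_⟩
      · have h1 : C * (1 / (C * (400 * L) ^ (1 / (k : ℝ)))) = ((400 * L) ^ (1 / (k : ℝ)))⁻¹ := by
          field_simp
        rw [h1, inv_pow, ← Real.rpow_natCast, ← Real.rpow_mul (by positivity)]
        rw [one_div_mul_cancel hkr.ne', Real.rpow_one]
        apply le_of_eq
        field_simp
      · have h2 : (400 * L) ^ (1 / (k : ℝ)) = 400 ^ (1 / (k : ℝ)) * L ^ (1 / (k : ℝ)) :=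
          Real.mul_rpow (by norm_num) h0.le
        have h3 : (400 : ℝ) ^ (1 / (k : ℝ)) ≤ 400 := by
          calc (400 : ℝ) ^ (1 / (k : ℝ)) ≤ 400 ^ (1 : ℝ) := by
                refine Real.rpow_le_rpow_of_exponent_le (by norm_num) ?_
                rw [div_le_one hkr]
                exact_mod_cast hk
            _ = 400 := Real.rpow_one _
        have h4 : 0 < L ^ (1 / (k : ℝ)) := Real.rpow_pos_of_pos h0 _
        rw [Real.rpow_add h0, Real.rpow_one, h2]
        have h5 : (0 : ℝ) < 400 ^ (1 / (k : ℝ)) := by positivity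
        have h6 : 1 / (C * (400 ^ (1 / (k : ℝ)) * L ^ (1 / (k : ℝ)))) *
            (400 * C * (L * L ^ (1 / (k : ℝ)))) = (400 / 400 ^ (1 / (k : ℝ))) * L := by
          field_simp
        rw [h6]
        have h7 : 1 ≤ 400 / (400 : ℝ) ^ (1 / (k : ℝ)) := by
          rw [le_div_iff₀ h5, one_mul]; exact h3
        nlinarith
  obtain ⟨V, hV1, hV2, hV3⟩ := threshold0 (uA A hA) hδ
  rw [hLe] at hV1 hV2
  refine ⟨V, ?_, ?_⟩
  · have h1 := hV1.trans hδ2
    exact le_of_mul_le_mul_left h1 hδ
  · intro v hv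
    have hIn := In_rs (uA A hA) V
    have h1 := S_bound (by linarith) hE V (rs (uA A hA) V) hδ hIn hV3 k
    have h2 : (C * δ) ^ k * (ls V - H (rs (uA A hA) V)) ≤ 1 / 400 :=
      (mul_le_mul_of_nonneg_left hV2 (by positivity)).trans hδ1
    set U := S (rs (uA A hA) V) k with hU
    have h3 := rel_S U V (In_S hIn k)
    set p : E → ℝ := law U.m U.X with hp
    have hpm : IsPM p := isPM_law U.hm U.X
    have h4 := popular_of_ent p hpm V (q V) (q_eq V) (by
      have : Real.log (Nat.card V) = ls V := rfl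
      rw [this]
      linarith) v hv
    exact count_of_law' A hA (k + 1) p (Two.two) (law_S A hA V k) (4 / 5) v h4

end B

end

end F2
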