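import Pool.Agent.H2.INV.Ent

/-! Families of random variables with side information on a finite `ZMod 2` vector space. -/

set_option autoImplicit false

namespace Pool.Agent.H96.F2

open H2INV Finset

noncomputable section

/-- A family `(X | lab)`: a finite probability space with a variable and side information. -/
structure Fam (W : Type) where
  Om : Type
  fin : Fintype Om
  m : Om → ℝ
  hm : IsPM m
  X : Om → W
  J : Type
  lab : Om → J

attribute [instance] Fam.fin

variable {W : Type} [AddCommGroup W] [Module (ZMod 2) W] [Finite W]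

/-- logarithm of the index of `K` -/
def lam (K : Submodule (ZMod 2) W) : ℝ := Real.log (Nat.card (W ⧸ K))

/-- deficiency of `X mod K` given the label -/
def D (X : Fam W) (K : Submodule (ZMod 2) W) : ℝ :=
  lam K - (ent X.m (fun w => (K.mkQ (X.X w), X.lab w)) - ent X.m X.lab)

/-- `s`-spread families -/
def Spread (s : ℝ) (X : Fam W) : Prop := ∀ K : Submodule (ZMod 2) W, D X K ≤ s * lam K

/-- independent sum, both labels revealed -/
def Fam.add (X Y : Fam W) : Fam W where
  Om := X.Om × Y.Om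
  fin := inferInstance
  m := prodPM X.m Y.m
  hm := isPM_prod X.hm Y.hm
  X := fun w => X.X w.1 + Y.X w.2
  J := X.J × Y.J
  lab := fun w => (X.lab w.1, Y.lab w.2)

/-- the family modulo `K` -/
def Fam.quo (X : Fam W) (K : Submodule (ZMod 2) W) : Fam (W ⧸ K) where
  Om := X.Om
  fin := inferInstance
  m := X.m
  hm := X.hm
  X := fun w => K.mkQ (X.X w)
  J := X.J
  lab := X.lab

/-- a section of the quotient map -/
def sec (K : Submodule (ZMod 2) W) (c : W ⧸ K) : W := Function.surjInv (K.mkQ_surjective) c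

omit [Finite W] in
lemma mkQ_sec (K : Submodule (ZMod 2) W) (c : W ⧸ K) : K.mkQ (sec K c) = c :=
  Function.surjInv_eq _ c

/-- the fibres of `X` modulo `K`, class revealed; a family on `K` -/
def Fam.fibre (X : Fam W) (K : Submodule (ZMod 2) W) : Fam K where
  Om := X.Om
  fin := inferInstance
  m := X.m
  hm := X.hm
  X := fun w => ⟨X.X w - sec K (K.mkQ (X.X w)), by
    rw [← Submodule.Quotient.mk_eq_zero, Submodule.Quotient.mk_sub]
    change K.mkQ (X.X w) - K.mkQ (sec K (K.mkQ (X.X w))) = 0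
    rw [mkQ_sec, sub_self]⟩
  J := (W ⧸ K) × X.J
  lab := fun w => (K.mkQ (X.X w), X.lab w)

instance finQuot (K : Submodule (ZMod 2) W) : Finite (W ⧸ K) :=
  Finite.of_surjective _ K.mkQ_surjective

omit [Finite W] in
lemma mkQ_eq_iff (K : Submodule (ZMod 2) W) (x y : W) : K.mkQ x = K.mkQ y ↔ x - y ∈ K := by
  rw [Submodule.mkQ_apply, Submodule.mkQ_apply, Submodule.Quotient.eq]

omit [Finite W] in
lemma card_quot_mul (K : Submodule (ZMod 2) W) :
    (Nat.card (W ⧸ K) : ℝ) * Nat.card K = Nat.card W := by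
  have h := Submodule.card_eq_card_quotient_mul_card K
  rw [h]; push_cast; ring

omit [Finite W] in
lemma lam_nonneg (K : Submodule (ZMod 2) W) : 0 ≤ lam K := Real.log_natCast_nonneg _

omit [Finite W] in
lemma lam_top : lam (⊤ : Submodule (ZMod 2) W) = 0 := by
  unfold lam
  have : Nat.card (W ⧸ (⊤ : Submodule (ZMod 2) W)) = 1 := by
    rw [Nat.card_eq_one_iff_unique]
    refine ⟨⟨fun a b => ?_⟩, ⟨0⟩⟩
    obtain ⟨a, rfl⟩ := (⊤ : Submodule (ZMod 2) W).mkQ_surjective a
    obtain ⟨b, rfl⟩ := (⊤ : Submodule (ZMod 2) W).mkQ_surjective b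
    rw [mkQ_eq_iff]
    exact Submodule.mem_top
  rw [this]; simp

omit [Finite W] in
lemma lam_bot : lam (⊥ : Submodule (ZMod 2) W) = Real.log (Nat.card W) := by
  unfold lam
  congr 2
  exact Nat.card_congr (Submodule.quotEquivOfEqBot ⊥ rfl).toEquiv

/-- |W/K| |K| = |W| -/
lemma lam_eq (K : Submodule (ZMod 2) W) :
    lam K = Real.log (Nat.card W) - Real.log (Nat.card K) := by
  unfold lam
  have h1 : (0 : ℝ) < Nat.card K := by exact_mod_cast Nat.card_pos
  have h2 : (0 : ℝ) < Nat.card (W ⧸ K) := by exact_mod_cast Nat.card_pos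
  rw [← card_quot_mul K, Real.log_mul (by positivity) (by positivity)]
  ring

omit [Finite W] in
lemma cent_nonneg' {Om : Type} [Fintype Om] {α β : Type*} {m : Om → ℝ} (hm : IsPM m)
    (f : Om → α) (g : Om → β) : ent m g ≤ ent m (fun w => (f w, g w)) :=
  ent_mono hm fun w w' h => by simp only [Prod.mk.injEq] at h; exact h.2

omit [Finite W] in
lemma cent_le' {Om : Type} [Fintype Om] {α β : Type*} {m : Om → ℝ} (hm : IsPM m)
    (f : Om → α) (g : Om → β) : ent m (fun w => (f w, g w)) - ent m g ≤ ent m f := by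
  have h := ent_submod hm f g (fun _ => ())
  have h1 : ent m (pr (pr f g) (fun _ => ())) = ent m (fun w => (f w, g w)) :=
    ent_congr m fun w w' => by simp
  have h2 : ent m (fun _ : Om => ()) = 0 := ent_const hm fun _ _ => rfl
  have h3 : ent m (pr f (fun _ => ())) = ent m f := ent_congr m fun w w' => by simp
  have h4 : ent m (pr g (fun _ => ())) = ent m g := ent_congr m fun w w' => by simp
  linarith

lemma D_nonneg (X : Fam W) (K : Submodule (ZMod 2) W) : 0 ≤ D X K := by
  have : Fintype (W ⧸ K) := Fintype.ofFinite _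
  have h1 := cent_le' X.hm (fun w => K.mkQ (X.X w)) X.lab
  have h2 := ent_le_log_card X.hm (fun w => K.mkQ (X.X w))
  rw [← Nat.card_eq_fintype_card] at h2
  unfold D lam
  linarith

omit [Finite W] in
lemma D_le_lam (X : Fam W) (K : Submodule (ZMod 2) W) : D X K ≤ lam K := by
  have h1 := cent_nonneg' X.hm (fun w => K.mkQ (X.X w)) X.lab
  unfold D
  linarith

lemma D_top (X : Fam W) : D X ⊤ = 0 :=
  le_antisymm ((D_le_lam X ⊤).trans lam_top.le) (D_nonneg X ⊤)

omit [Finite W] in
lemma D_bot (X : Fam W) :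
    D X ⊥ = Real.log (Nat.card W) - (ent X.m (fun w => (X.X w, X.lab w)) - ent X.m X.lab) := by
  unfold D
  rw [lam_bot]
  congr 2
  refine ent_congr _ fun w w' => ?_
  simp only [Prod.mk.injEq]
  rw [mkQ_eq_iff, Submodule.mem_bot, sub_eq_zero]

omit [Finite W] in
/-- deficiency of the quotient family -/
lemma D_quo_bot (X : Fam W) (K : Submodule (ZMod 2) W) : D (X.quo K) ⊥ = D X K := by
  rw [D_bot]; rfl

/-- deficiency of the fibre family -/
lemma D_fibre (X : Fam W) (K : Submodule (ZMod 2) W) (K' : Submodule (ZMod 2) K) :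
    D (X.fibre K) K' = D X (K'.map K.subtype) - D X K := by
  have h1 : lam K' = lam (K'.map K.subtype) - lam K := by
    rw [lam_eq K', lam_eq K, lam_eq (K'.map K.subtype)]
    have : Nat.card (K'.map K.subtype) = Nat.card K' :=
      Nat.card_congr (Submodule.equivSubtypeMap K K').symm.toEquiv
    rw [this]; ring
  have hmem : ∀ x y : W, K.mkQ x = K.mkQ y ↔ x - y ∈ K := mkQ_eq_iff K
  have h2 : ent X.m (fun w => (K'.mkQ ((X.fibre K).X w), (K.mkQ (X.X w), X.lab w)))
      = ent X.m (fun w => ((K'.map K.subtype).mkQ (X.X w), X.lab w)) := by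
    refine ent_congr _ fun w w' => ?_
    simp only [Prod.mk.injEq]
    constructor
    · rintro ⟨h3, h4, h5⟩
      refine ⟨?_, h5⟩
      rw [mkQ_eq_iff] at h3 ⊢
      refine ⟨_, h3, ?_⟩
      simp only [Submodule.subtype_apply, Fam.fibre, AddSubgroupClass.coe_sub]
      rw [h4]; abel
    · rintro ⟨h3, h5⟩
      rw [mkQ_eq_iff] at h3
      obtain ⟨z, hz, hz'⟩ := h3
      simp only [Submodule.subtype_apply] at hz'
      have h4 : K.mkQ (X.X w) = K.mkQ (X.X w') := by
        rw [hmem, ← hz']; exact z.2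
      refine ⟨?_, h4, h5⟩
      rw [mkQ_eq_iff]
      have : (X.fibre K).X w - (X.fibre K).X w' = z := by
        apply Subtype.ext
        simp only [Fam.fibre, AddSubgroupClass.coe_sub]
        rw [h4, hz']; abel
      rw [this]; exact hz
  unfold D
  change lam K' - (ent X.m (fun w => (K'.mkQ ((X.fibre K).X w), (K.mkQ (X.X w), X.lab w)))
    - ent X.m (fun w => (K.mkQ (X.X w), X.lab w))) = _
  rw [h1, h2]; ring

lemma D_anti (X : Fam W) {K K' : Submodule (ZMod 2) W} (h : K' ≤ K) : D X K ≤ D X K' := by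
  have h1 := D_fibre X K (K'.comap K.subtype)
  have h2 := D_nonneg (X.fibre K) (K'.comap K.subtype)
  rw [Submodule.map_comap_subtype, inf_eq_right.2 h] at h1
  linarith

lemma lam_anti {K K' : Submodule (ZMod 2) W} (h : K' ≤ K) : lam K ≤ lam K' := by
  rw [lam_eq, lam_eq]
  have h1 : (0 : ℝ) < Nat.card K' := by exact_mod_cast Nat.card_pos
  have h2 : (Nat.card K' : ℝ) ≤ Nat.card K := by
    exact_mod_cast Nat.card_le_card_of_injective _ (Submodule.inclusion_injective h)
  linarith [Real.log_le_log h1 h2]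

/-- THRESHOLD LEMMA -/
lemma threshold (X : Fam W) {σ : ℝ} (hσ : 0 < σ) :
    ∃ K : Submodule (ZMod 2) W, lam K ≤ D X ⊥ / σ ∧ σ * lam K ≤ D X K ∧
      (∀ K' ≤ K, D X K' - D X K ≤ σ * (lam K' - lam K)) ∧ Spread σ (X.fibre K) := by
  classical
  obtain ⟨K, hK⟩ := Finite.exists_max (fun K : Submodule (ZMod 2) W => D X K - σ * lam K)
  have h0 := hK ⊤
  simp only [D_top, lam_top, mul_zero, sub_zero] at h0
  have h1 : σ * lam K ≤ D X K := by linarith
  refine ⟨K, ?_, h1, ?_, ?_⟩
  · rw [le_div_iff₀ hσ, mul_comm]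
    exact h1.trans (D_anti X bot_le)
  · intro K' _
    have := hK K'
    linarith
  · intro K'
    rw [D_fibre]
    have h2 := hK (K'.map K.subtype)
    have h3 : lam K' = lam (K'.map K.subtype) - lam K := by
      rw [lam_eq K', lam_eq K, lam_eq (K'.map K.subtype)]
      have : Nat.card (K'.map K.subtype) = Nat.card K' :=
        Nat.card_congr (Submodule.equivSubtypeMap K K').symm.toEquiv
      rw [this]; ring
    rw [h3]; linarith

end

end Pool.Agent.H96.F2
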