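import Pool.Agent.H96.F2.Bog

/-! Lemma A (Harder-Narasimhan / Abel) and Lemma B (dual) of `H2_EPP_SIMPL.md`. -/

set_option autoImplicit false

namespace F2

open H2INV Finset

noncomputable section

namespace B

variable {E : Type} [AddCommGroup E]

lemma ls_nonneg (V : AddSubgroup E) : 0 ≤ ls V := Real.log_natCast_nonneg _

lemma ls_le [Finite E] {W V : AddSubgroup E} (h : W ≤ V) : ls W ≤ ls V := by
  unfold ls
  refine Real.log_le_log (by exact_mod_cast Nat.card_pos) ?_
  exact_mod_cast Nat.card_le_card_of_injective _ (AddSubgroup.inclusion_injective h)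

lemma card_lt [Finite E] {W V : AddSubgroup E} (h : W < V) : Nat.card W < Nat.card V := by
  have h1 := Nat.card_le_card_of_injective _ (AddSubgroup.inclusion_injective h.le)
  refine lt_of_le_of_ne h1 fun h2 => h.ne ?_
  exact AddSubgroup.eq_of_le_of_card_ge h.le h2.ge

lemma ls_lt [Finite E] {W V : AddSubgroup E} (h : W < V) : ls W < ls V := by
  unfold ls
  refine Real.log_lt_log (by exact_mod_cast Nat.card_pos) ?_
  exact_mod_cast card_lt h

omit [AddCommGroup E] in
lemma H_nonneg (U : Fam E) : 0 ≤ H U := cent_nonneg U.hm _ _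

lemma ls_le_hh (U : Fam E) (W : AddSubgroup E) : ls W ≤ hh U W := by
  have := cent_nonneg U.hm (fun w => q W (U.X w)) U.J
  unfold hh; linarith

/-- a family in `V` has `hh U V = ls V` -/
lemma hh_self {U : Fam E} {V : AddSubgroup E} (h : In U V) : hh U V = ls V := by
  unfold hh
  have : cent U.m (fun w => q V (U.X w)) U.J = 0 := by
    unfold cent
    rw [ent_congr U.m (f := pr (fun w => q V (U.X w)) U.J) (g := U.J), sub_self]
    intro w w'
    simp only [pr_eq]
    exact ⟨fun h => h.2, fun h' => ⟨(q_eq V _ _).2 (h w w' h'), h'⟩⟩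
  rw [this, zero_add]

/-- smearing by a larger subgroup -/
lemma hh_mono [Finite E] (U : Fam E) {W W' : AddSubgroup E} (h : W ≤ W') : hh U W ≤ hh U W' := by
  have h1 := hh_rs U h
  have h2 := H_le_hh (rs U W') W
  have h3 := H_rs U W'
  -- `hh (rs U W') W ≤ ls W'`
  have h4 : hh (rs U W') W ≤ hh (rs U W') W' := by
    classical
    -- given the class mod `W'`, the class mod `W` has at most `|W'|/|W|` values
    have hne : ∀ c : E ⧸ W', ∃ x : E, q W' x = c := fun c => QuotientAddGroup.mk_surjective c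
    choose s hs using hne
    have k1 : ∀ w, U.X w - s (q W' (U.X w)) ∈ W' := fun w => by rw [← q_eq, hs]
    let Y : U.Om → W' ⧸ (W.addSubgroupOf W') := fun w =>
      QuotientAddGroup.mk ⟨U.X w - s (q W' (U.X w)), k1 w⟩
    have : Finite (W' ⧸ (W.addSubgroupOf W')) := inferInstance
    have : Fintype (W' ⧸ (W.addSubgroupOf W')) := Fintype.ofFinite _
    have e1 : cent U.m (fun w => q W (U.X w)) (pr (fun w => q W' (U.X w)) U.J)
        = cent U.m Y (pr (fun w => q W' (U.X w)) U.J) := by
      refine cent_congr _ (fun _ _ => Iff.rfl) fun w w' hh' => ?_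
      simp only [pr_eq] at hh'
      simp only [Y]
      rw [q_eq, eq_comm, QuotientAddGroup.eq, AddSubgroup.mem_addSubgroupOf]
      simp only [AddSubgroup.coe_add, NegMemClass.coe_neg]
      rw [hh'.1]
      have : -(U.X w' - s (q W' (U.X w'))) + (U.X w - s (q W' (U.X w'))) = U.X w - U.X w' := by
        abel
      rw [this]
    have e2 := cent_le_log_card U.hm Y (pr (fun w => q W' (U.X w)) U.J)
    rw [← e1, ← Nat.card_eq_fintype_card] at e2
    have e3 : (Nat.card W' : ℝ) = Nat.card (W' ⧸ (W.addSubgroupOf W')) * Nat.card W := by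
      have := AddSubgroup.card_eq_card_quotient_mul_card_addSubgroup (W.addSubgroupOf W')
      rw [this]
      push_cast
      congr 2
      exact Nat.card_congr (AddSubgroup.addSubgroupOfEquivOfLe h).toEquiv
    have p1 : (0 : ℝ) < Nat.card W := by exact_mod_cast Nat.card_pos
    have p2 : (0 : ℝ) < Nat.card (W' ⧸ (W.addSubgroupOf W')) := by exact_mod_cast Nat.card_pos
    have e4 : ls W' = Real.log (Nat.card (W' ⧸ (W.addSubgroupOf W'))) + ls W := by
      unfold ls
      rw [e3, Real.log_mul p2.ne' p1.ne']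
    have e5 : hh (rs U W') W' = ls W' := hh_self (In_rs U W')
    rw [e5, e4]
    have e6 : hh (rs U W') W = cent U.m (fun w => q W (U.X w)) (pr (fun w => q W' (U.X w)) U.J)
        + ls W := rfl
    rw [e6]
    linarith
  rw [hh_self (In_rs U W')] at h4
  linarith

lemma hh_le [Finite E] {U : Fam E} {V W : AddSubgroup E} (h : In U V) (hW : W ≤ V) :
    hh U W ≤ ls V := (hh_mono U hW).trans (hh_self h).le

lemma H_le [Finite E] {U : Fam E} {V : AddSubgroup E} (h : In U V) : H U ≤ ls V :=
  (H_le_hh U V).trans (hh_self h).le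

/-- conditioning on both classes -/
lemma H_add_rs (X Y : Fam E) (W : AddSubgroup E) :
    H (add (rs X W) (rs Y W)) ≤ H (add X Y) - hh (add X Y) W + ls W := by
  rw [← H_rs]
  refine cent_anti (add X Y).hm (add X Y).X ?_
  rintro ⟨a, b⟩ ⟨a', b'⟩ h
  have h1 : ((q W (X.X a), X.J a), (q W (Y.X b), Y.J b))
      = ((q W (X.X a'), X.J a'), (q W (Y.X b'), Y.J b')) := h
  simp only [Prod.mk.injEq] at h1
  obtain ⟨⟨h2, h3⟩, h4, h5⟩ := h1
  change (q W (X.X a + Y.X b), (X.J a, Y.J b)) = (q W (X.X a' + Y.X b'), (X.J a', Y.J b'))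
  rw [h3, h5]
  congr 1
  rw [q_eq] at h2 h4 ⊢
  have : X.X a + Y.X b - (X.X a' + Y.X b') = (X.X a - X.X a') + (Y.X b - Y.X b') := by abel
  rw [this]
  exact W.add_mem h2 h4

/-- relative form of the hypothesis of Lemma A: semistable on `V/W` -/
def HypRel (a l : ℝ) : Prop :=
  ∀ (E : Type) [AddCommGroup E] [Finite E] [Two E] (V W : AddSubgroup E) (X Y : Fam E) (x : ℝ),
    0 ≤ x → W ≤ V → In X V → In Y V →
    (∀ W' : AddSubgroup E, W ≤ W' → W' ≤ V → ls V - hh X W' ≤ x * (ls V - ls W')) →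
    ls V - hh X W = x * (ls V - ls W) →
    ls V - hh (add X Y) W ≤ x * (a * (ls V - ls W) + l * (ls V - hh Y W))

/-- the first block: a proper subgroup with maximal slope -/
lemma exists_block [Finite E] (U : Fam E) {V : AddSubgroup E} (hU : In U V) (hV : ⊥ < V) :
    ∃ (W : AddSubgroup E) (x : ℝ), W < V ∧ 0 ≤ x ∧ x ≤ 1 ∧
      ls V - hh U W = x * (ls V - ls W) ∧
      ∀ W' : AddSubgroup E, W' ≤ V → ls V - hh U W' ≤ x * (ls V - ls W') := by
  classical
  have : Finite (AddSubgroup E) := inferInstance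
  have : Nonempty {W : AddSubgroup E // W < V} := ⟨⟨⊥, hV⟩⟩
  obtain ⟨⟨W, hW⟩, hmax⟩ := Finite.exists_max
    (fun W : {W : AddSubgroup E // W < V} => (ls V - hh U W.1) / (ls V - ls W.1))
  have hd := ls_lt hW
  refine ⟨W, (ls V - hh U W) / (ls V - ls W), hW, ?_, ?_, ?_, ?_⟩
  · refine div_nonneg ?_ (by linarith)
    have := hh_le hU hW.le
    linarith
  · rw [div_le_one (by linarith)]
    have := ls_le_hh U W
    linarith
  · rw [div_mul_cancel₀]
    linarith
  · intro W' hW'
    rcases hW'.eq_or_lt with h | h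
    · subst h
      rw [hh_self hU]; simp
    · have h1 := hmax ⟨W', h⟩
      simp only at h1
      have hd' := ls_lt h
      rwa [div_le_iff₀ (by linarith)] at h1

/-- LEMMA A. -/
theorem lemmaA {a l : ℝ} (ha : 0 ≤ a) (hl : 0 ≤ l) (hyp : HypRel a l) (E : Type) [AddCommGroup E]
    [Finite E] [Two E] (N : ℕ) : ∀ (V : AddSubgroup E), Nat.card V ≤ N → ∀ (X Y : Fam E)
    (x y e : ℝ), 0 ≤ x → 0 ≤ y → 0 ≤ e → In X V → In Y V → Spr X V x →
    (∀ W : AddSubgroup E, W ≤ V → ls V - hh Y W ≤ y * (ls V - ls W) + e) →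
    ls V - H (add X Y) ≤ (a + l * y) * (ls V - H X) + l * x * e := by
  induction N with
  | zero =>
    intro V hV
    exact absurd hV (by simpa using (Nat.card_pos (α := V)).ne')
  | succ N ih =>
    intro V hV X Y x y e hx hy he hX hY hsX hsY
    have hDX : 0 ≤ ls V - H X := by linarith [H_le hX]
    rcases (bot_le : (⊥ : AddSubgroup E) ≤ V).eq_or_lt with h0 | h0
    · subst h0
      have h1 : ls (⊥ : AddSubgroup E) = 0 := by unfold ls; simp
      have h2 := H_nonneg (add X Y)
      have h3 : 0 ≤ (a + l * y) * (ls (⊥ : AddSubgroup E) - H X) + l * x * e := by positivity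
      linarith
    · obtain ⟨W, x1, hW, hx1, _, heq, hmax⟩ := exists_block X hX h0
      have hd := ls_lt hW
      have hx1x : x1 ≤ x := by
        have h1 := hsX W hW.le
        rw [heq] at h1
        exact le_of_mul_le_mul_right h1 (by linarith)
      -- first block
      have b1 := hyp E V W X Y x1 hx1 hW.le hX hY (fun W' _ h => hmax W' h) heq
      -- the rest
      have e0 : 0 ≤ e + y * (ls V - ls W) - (ls V - hh Y W) := by linarith [hsY W hW.le]
      have hcard : Nat.card W ≤ N := by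
        have := card_lt hW
        omega
      have b2 := ih W hcard (rs X W) (rs Y W) x1 y (e + y * (ls V - ls W) - (ls V - hh Y W))
        hx1 hy e0 (In_rs X W) (In_rs Y W)
        (fun W' hW' => by
          rw [hh_rs X hW']
          have := hmax W' (hW'.trans hW.le)
          nlinarith)
        (fun W' hW' => by
          rw [hh_rs Y hW']
          have := hsY W' (hW'.trans hW.le)
          nlinarith)
      have b3 := H_add_rs X Y W
      rw [H_rs] at b2
      have hle : l * x1 * e ≤ l * x * e := by gcongr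
      have key : ls V - H (add X Y) ≤ (ls V - hh (add X Y) W)
          + (ls W - H (add (rs X W) (rs Y W))) := by linarith
      have hid : x1 * (a * (ls V - ls W) + l * (ls V - hh Y W))
          + ((a + l * y) * (ls W - (H X - hh X W + ls W))
            + l * x1 * (e + y * (ls V - ls W) - (ls V - hh Y W)))
          = (a + l * y) * (ls V - H X) + l * x1 * e := by
        have : hh X W = ls V - x1 * (ls V - ls W) := by linarith
        rw [this]; ring
      linarith

/-- relative form of the current bound `lb` -/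
def LbRel (lb : ℝ → ℝ) : Prop :=
  ∀ (E : Type) [AddCommGroup E] [Finite E] [Two E] (V W : AddSubgroup E) (X Z : Fam E) (z : ℝ),
    0 ≤ z → z ≤ 1 → W ≤ V → In X V → In Z V →
    (∀ W' : AddSubgroup E, W ≤ W' → W' ≤ V → ls V - hh Z W' ≤ z * (ls V - ls W')) →
    ls V - hh (add X Z) W ≤ lb z * (ls V - hh X W)

/-- invariance under measure preserving maps -/
lemma cent_of_mp {Om Om' : Type*} [Fintype Om] [Fintype Om'] {m : Om → ℝ} {m' : Om' → ℝ}
    {φ : Om' → Om} (h : MP m' φ m) {α β : Type*} (f : Om → α) (g : Om → β) :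
    cent m' (fun w => f (φ w)) (fun w => g (φ w)) = cent m f g := by
  unfold cent
  have h1 := ent_comp_of_mp h (pr f g)
  have h2 := ent_comp_of_mp h g
  rw [← h1, ← h2]
  rfl

lemma cent_add_assoc (X Y Z : Fam E) {α : Type*} (F : E → α) :
    cent (add (add X Y) Z).m (fun w => F ((add (add X Y) Z).X w)) (add (add X Y) Z).J
      = cent (add X (add Y Z)).m (fun w => F ((add X (add Y Z)).X w)) (add X (add Y Z)).J := by
  refine Eq.trans ?_ (cent_of_mp (mp_assoc X.m Y.m Z.m) (fun w => F ((add X (add Y Z)).X w))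
    (add X (add Y Z)).J)
  refine cent_congr _ ?_ ?_
  · rintro ⟨⟨a, b⟩, c⟩ ⟨⟨a', b'⟩, c'⟩
    change ((X.J a, Y.J b), Z.J c) = ((X.J a', Y.J b'), Z.J c')
      ↔ (X.J a, (Y.J b, Z.J c)) = (X.J a', (Y.J b', Z.J c'))
    simp only [Prod.mk.injEq, and_assoc]
  · rintro ⟨⟨a, b⟩, c⟩ ⟨⟨a', b'⟩, c'⟩ _
    change F (X.X a + Y.X b + Z.X c) = F (X.X a' + Y.X b' + Z.X c')
      ↔ F (X.X a + (Y.X b + Z.X c)) = F (X.X a' + (Y.X b' + Z.X c'))
    rw [add_assoc, add_assoc]

lemma H_add_assoc (X Y Z : Fam E) : H (add (add X Y) Z) = H (add X (add Y Z)) :=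
  cent_add_assoc X Y Z id

lemma hh_add_assoc (X Y Z : Fam E) (W : AddSubgroup E) :
    hh (add (add X Y) Z) W = hh (add X (add Y Z)) W := by
  unfold hh
  rw [← cent_add_assoc X Y Z (q W)]

lemma H_add_rs3 (X Z : Fam E) (W : AddSubgroup E) :
    H (add (rs X W) (add (rs Z W) (rs Z W)))
      ≤ H (add X (add Z Z)) - hh (add X (add Z Z)) W + ls W := by
  rw [← H_rs]
  refine cent_anti (add X (add Z Z)).hm (add X (add Z Z)).X ?_
  rintro ⟨a, b, c⟩ ⟨a', b', c'⟩ h
  have h1 : ((q W (X.X a), X.J a), ((q W (Z.X b), Z.J b), (q W (Z.X c), Z.J c)))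
      = ((q W (X.X a'), X.J a'), ((q W (Z.X b'), Z.J b'), (q W (Z.X c'), Z.J c'))) := h
  simp only [Prod.mk.injEq] at h1
  obtain ⟨⟨h2, h3⟩, ⟨h4, h5⟩, h6, h7⟩ := h1
  change (q W (X.X a + (Z.X b + Z.X c)), (X.J a, (Z.J b, Z.J c)))
    = (q W (X.X a' + (Z.X b' + Z.X c')), (X.J a', (Z.J b', Z.J c')))
  rw [h3, h5, h7]
  congr 1
  rw [q_eq] at h2 h4 h6 ⊢
  have : X.X a + (Z.X b + Z.X c) - (X.X a' + (Z.X b' + Z.X c'))
      = (X.X a - X.X a') + ((Z.X b - Z.X b') + (Z.X c - Z.X c')) := by abel
  rw [this]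
  exact W.add_mem h2 (W.add_mem h4 h6)

/-- LEMMA B. -/
theorem lemmaB {a l : ℝ} {lb : ℝ → ℝ} (hlb : LbRel lb)
    (hlb0 : ∀ z, 0 ≤ z → z ≤ 1 → 0 ≤ lb z)
    (hmono : ∀ z z', 0 ≤ z → z ≤ z' → z' ≤ 1 → lb z ≤ lb z')
    (hmaj : ∀ z, 0 ≤ z → z ≤ 1 → (lb z + lb z ^ 2) / 2 ≤ a + l * z) (E : Type)
    [AddCommGroup E] [Finite E] [Two E] (N : ℕ) : ∀ (V : AddSubgroup E), Nat.card V ≤ N →
    ∀ (X Z : Fam E) (x e z : ℝ), 0 ≤ x → 0 ≤ e → 0 ≤ z → z ≤ 1 → In X V → In Z V →
    Spr Z V z → (∀ W : AddSubgroup E, W ≤ V → ls V - hh X W ≤ x * (ls V - ls W) + e) →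
    (ls V - H (add X Z)) + (ls V - H (add X (add Z Z))) ≤
      2 * x * (a * ls V + l * (ls V - H Z)) + (lb z + lb z ^ 2) * e := by
  have ha : 0 ≤ a := by
    have h1 := hmaj 0 le_rfl zero_le_one
    have h2 := hlb0 0 le_rfl zero_le_one
    nlinarith [sq_nonneg (lb 0)]
  induction N with
  | zero =>
    intro V hV
    exact absurd hV (by simpa using (Nat.card_pos (α := V)).ne')
  | succ N ih =>
    intro V hV X Z x e z hx he hz hz1 hX hZ hsZ hsX
    rcases (bot_le : (⊥ : AddSubgroup E) ≤ V).eq_or_lt with h0 | h0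
    · subst h0
      have h1 : ls (⊥ : AddSubgroup E) = 0 := by unfold ls; simp
      have h2 := H_nonneg (add X Z)
      have h3 := H_nonneg (add X (add Z Z))
      have h4 : H Z = 0 := le_antisymm ((H_le hZ).trans h1.le) (H_nonneg Z)
      have h5 : 0 ≤ (lb z + lb z ^ 2) * e :=
        mul_nonneg (add_nonneg (hlb0 z hz hz1) (sq_nonneg _)) he
      rw [h4, h1]
      linarith
    · obtain ⟨W, z1, hW, hz10, hz11, heq, hmax⟩ := exists_block Z hZ h0
      have hd := ls_lt hW
      have hz1z : z1 ≤ z := by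
        have h1 := hsZ W hW.le
        rw [heq] at h1
        exact le_of_mul_le_mul_right h1 (by linarith)
      have hL0 := hlb0 z1 hz10 hz11
      have hLz := hmono z1 z hz10 hz1z hz1
      -- first block
      have b1 := hlb E V W X Z z1 hz10 hz11 hW.le hX hZ (fun W' _ h => hmax W' h)
      have b1' := hlb E V W (add X Z) Z z1 hz10 hz11 hW.le (In_add hX hZ) hZ
        (fun W' _ h => hmax W' h)
      rw [hh_add_assoc] at b1'
      have hDX : 0 ≤ ls V - hh X W := by linarith [hh_le hX hW.le]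
      have b1'' : ls V - hh (add X (add Z Z)) W ≤ lb z1 ^ 2 * (ls V - hh X W) := by
        calc ls V - hh (add X (add Z Z)) W ≤ lb z1 * (ls V - hh (add X Z) W) := b1'
          _ ≤ lb z1 * (lb z1 * (ls V - hh X W)) := mul_le_mul_of_nonneg_left b1 hL0
          _ = _ := by ring
      -- the rest
      have e0 : 0 ≤ e + x * (ls V - ls W) - (ls V - hh X W) := by linarith [hsX W hW.le]
      have hcard : Nat.card W ≤ N := by
        have := card_lt hW
        omega
      have b2 := ih W hcard (rs X W) (rs Z W) x (e + x * (ls V - ls W) - (ls V - hh X W)) z1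
        hx e0 hz10 hz11 (In_rs X W) (In_rs Z W)
        (fun W' hW' => by
          rw [hh_rs Z hW']
          have := hmax W' (hW'.trans hW.le)
          nlinarith)
        (fun W' hW' => by
          rw [hh_rs X hW']
          have := hsX W' (hW'.trans hW.le)
          nlinarith)
      have b3 := H_add_rs X Z W
      have b4 := H_add_rs3 X Z W
      rw [H_rs] at b2
      have hmz := hmaj z1 hz10 hz11
      have hHz : (lb z1 + lb z1 ^ 2) * e ≤ (lb z + lb z ^ 2) * e := by
        refine mul_le_mul_of_nonneg_right ?_ he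
        nlinarith
      have hblock : (lb z1 + lb z1 ^ 2) * (x * (ls V - ls W))
          ≤ 2 * x * (a * (ls V - ls W) + l * (ls V - hh Z W)) := by
        rw [heq]
        have h1 : (lb z1 + lb z1 ^ 2) * (x * (ls V - ls W))
            ≤ (2 * (a + l * z1)) * (x * (ls V - ls W)) :=
          mul_le_mul_of_nonneg_right (by linarith) (mul_nonneg hx (by linarith))
        refine h1.trans (le_of_eq ?_)
        ring
      have key : (ls V - H (add X Z)) + (ls V - H (add X (add Z Z)))
          ≤ (lb z1 * (ls V - hh X W) + lb z1 ^ 2 * (ls V - hh X W))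
            + ((ls W - H (add (rs X W) (rs Z W)))
              + (ls W - H (add (rs X W) (add (rs Z W) (rs Z W))))) := by linarith
      have hid : (lb z1 * (ls V - hh X W) + lb z1 ^ 2 * (ls V - hh X W))
            + (2 * x * (a * ls W + l * (ls W - (H Z - hh Z W + ls W)))
              + (lb z1 + lb z1 ^ 2) * (e + x * (ls V - ls W) - (ls V - hh X W)))
          = 2 * x * (a * ls W + l * (hh Z W - H Z)) + (lb z1 + lb z1 ^ 2) * e
            + (lb z1 + lb z1 ^ 2) * (x * (ls V - ls W)) := by ring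
      have hfin : 2 * x * (a * ls W + l * (hh Z W - H Z))
            + 2 * x * (a * (ls V - ls W) + l * (ls V - hh Z W))
          = 2 * x * (a * ls V + l * (ls V - H Z)) := by ring
      linarith

end B

end

end F2
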