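import Pool.Agent.H2.INV.Ent

/-! Popularity from entropy: if the law `p` is nearly uniform on the cosets of `K` (in entropy),
then every `v ∈ K` has many representations in `p * p`. -/

set_option autoImplicit false

namespace Pool.Agent.H96.F2

open H2INV Finset

noncomputable section

variable {W : Type*} [AddCommGroup W] [Fintype W]

noncomputable local instance instFK (K : AddSubgroup W) : Fintype K := Fintype.ofFinite K

lemma sum_inv_shift (g f : W → ℝ) (v : W) (hg : ∀ y, g (y + v) = g y) :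
    ∑ y, g y * f (y + v) = ∑ y, g y * f y := by
  rw [← Equiv.sum_comp (Equiv.addRight v) (fun y => g y * f y)]
  exact Finset.sum_congr rfl fun y _ => by
    simp only [Equiv.coe_addRight]; rw [hg]

/-- the average over the coset of `K` -/
def avg (K : AddSubgroup W) (f : W → ℝ) (y : W) : ℝ :=
  (∑ u : K, f (y + u)) / Nat.card K

lemma avg_inv (K : AddSubgroup W) (f : W → ℝ) {v : W} (hv : v ∈ K) (y : W) :
    avg K f (y + v) = avg K f y := by
  unfold avg
  congr 1
  rw [← Equiv.sum_comp (Equiv.addLeft (⟨v, hv⟩ : K)) (fun u : K => f (y + u))]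
  exact Finset.sum_congr rfl fun u _ => by
    simp only [Equiv.coe_addLeft, AddSubgroup.coe_add]; rw [add_assoc]

lemma sum_avg (K : AddSubgroup W) (g f : W → ℝ) (hg : ∀ v ∈ K, ∀ y, g (y + v) = g y) :
    ∑ y, g y * avg K f y = ∑ y, g y * f y := by
  have hc : (Nat.card K : ℝ) ≠ 0 := by
    have : 0 < Nat.card K := Nat.card_pos
    positivity
  unfold avg
  have h1 : ∀ y, g y * ((∑ u : K, f (y + u)) / Nat.card K)
      = (∑ u : K, g y * f (y + u)) / Nat.card K := by
    intro y
    rw [← Finset.mul_sum]; ring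
  simp only [h1]
  rw [← Finset.sum_div, Finset.sum_comm]
  have h2 : ∀ u : K, ∑ y, g y * f (y + u) = ∑ y, g y * f y := fun u =>
    sum_inv_shift g f u (hg u u.2)
  simp only [h2, Finset.sum_const, nsmul_eq_mul, Finset.card_univ]
  rw [← Nat.card_eq_fintype_card]
  field_simp

lemma fib_mkQ (K : AddSubgroup W) {α : Type*} (π : W → α) (hπ : ∀ x y, π x = π y ↔ x - y ∈ K)
    (p : W → ℝ) (y : W) : fib p π y = ∑ u : K, p (y + u) := by
  classical
  unfold fib
  rw [← Finset.sum_filter]
  symm
  refine Finset.sum_bij (fun (u : K) _ => y + u) ?_ ?_ ?_ ?_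
  · intro u _
    simp only [Finset.mem_filter, Finset.mem_univ, true_and]
    rw [hπ]
    simp
  · intro a _ b _ h
    exact Subtype.ext (add_left_cancel h)
  · intro z hz
    simp only [Finset.mem_filter, Finset.mem_univ, true_and] at hz
    rw [hπ] at hz
    exact ⟨⟨z - y, hz⟩, Finset.mem_univ _, by simp⟩
  · intro u _; rfl

omit [AddCommGroup W] in
/-- relative entropy dominates the squared Hellinger distance -/
lemma hel_le (a b : W → ℝ) (ha : IsPM a) (hb : IsPM b) (hab : ∀ y, b y = 0 → a y = 0) :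
    ∑ y, (Real.sqrt (a y) - Real.sqrt (b y)) ^ 2 ≤ ∑ y, a y * (Real.log (a y) - Real.log (b y)) := by
  have hpt : ∀ y, (Real.sqrt (a y) - Real.sqrt (b y)) ^ 2
      ≤ a y * (Real.log (a y) - Real.log (b y)) + (b y - a y) := by
    intro y
    rcases (ha.nonneg y).eq_or_lt with h | h
    · rw [← h]
      have := Real.sq_sqrt (hb.nonneg y)
      simp only [Real.sqrt_zero, zero_sub, even_two, Even.neg_pow, zero_mul, sub_zero, zero_add]
      linarith
    · have hb' : 0 < b y := by
        rcases (hb.nonneg y).eq_or_lt with h2 | h2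
        · exact absurd (hab y h2.symm) h.ne'
        · exact h2
      have e2 : Real.log (Real.sqrt (b y) / Real.sqrt (a y))
          ≤ Real.sqrt (b y) / Real.sqrt (a y) - 1 :=
        Real.log_le_sub_one_of_pos (div_pos (Real.sqrt_pos.mpr hb') (Real.sqrt_pos.mpr h))
      rw [Real.log_div (Real.sqrt_pos.mpr hb').ne' (Real.sqrt_pos.mpr h).ne',
        Real.log_sqrt hb'.le, Real.log_sqrt h.le] at e2
      have e3 : a y * (Real.sqrt (b y) / Real.sqrt (a y)) = Real.sqrt (a y) * Real.sqrt (b y) := by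
        have hs : 0 < Real.sqrt (a y) := Real.sqrt_pos.mpr h
        have e7 := Real.mul_self_sqrt h.le
        calc a y * (Real.sqrt (b y) / Real.sqrt (a y))
            = (Real.sqrt (a y) * Real.sqrt (a y)) * (Real.sqrt (b y) / Real.sqrt (a y)) := by
              rw [e7]
          _ = Real.sqrt (a y) * Real.sqrt (b y) := by field_simp
      have e4 := mul_le_mul_of_nonneg_left e2 h.le
      have e5 := Real.sq_sqrt h.le
      have e6 := Real.sq_sqrt hb'.le
      have e8 : a y * (Real.sqrt (b y) / Real.sqrt (a y) - 1)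
          = Real.sqrt (a y) * Real.sqrt (b y) - a y := by rw [← e3]; ring
      rw [e8] at e4
      nlinarith [e4, e5, e6]
  refine (Finset.sum_le_sum fun y _ => hpt y).trans (le_of_eq ?_)
  rw [Finset.sum_add_distrib, Finset.sum_sub_distrib, ha.sum_one, hb.sum_one]
  ring

omit [AddCommGroup W] in
lemma l1_sq_le (a b : W → ℝ) (ha : IsPM a) (hb : IsPM b) :
    (∑ y, |a y - b y|) ^ 2 ≤ 4 * ∑ y, (Real.sqrt (a y) - Real.sqrt (b y)) ^ 2 := by
  have e1 : ∀ y, |a y - b y| = |Real.sqrt (a y) - Real.sqrt (b y)|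
      * (Real.sqrt (a y) + Real.sqrt (b y)) := by
    intro y
    have h1 := Real.mul_self_sqrt (ha.nonneg y)
    have h2 := Real.mul_self_sqrt (hb.nonneg y)
    have h3 : a y - b y = (Real.sqrt (a y) - Real.sqrt (b y))
        * (Real.sqrt (a y) + Real.sqrt (b y)) := by linear_combination -h1 + h2
    rw [h3, abs_mul, abs_of_nonneg (add_nonneg (Real.sqrt_nonneg (a y))
      (Real.sqrt_nonneg (b y)))]
  simp only [e1]
  refine (Finset.sum_mul_sq_le_sq_mul_sq _ _ _).trans ?_
  simp only [sq_abs]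
  have e6 : ∑ y, (Real.sqrt (a y) + Real.sqrt (b y)) ^ 2 ≤ 4 := by
    have : ∀ y, (Real.sqrt (a y) + Real.sqrt (b y)) ^ 2 ≤ 2 * a y + 2 * b y := by
      intro y
      have h1 := Real.mul_self_sqrt (ha.nonneg y)
      have h2 := Real.mul_self_sqrt (hb.nonneg y)
      nlinarith [sq_nonneg (Real.sqrt (a y) - Real.sqrt (b y))]
    refine (Finset.sum_le_sum fun y _ => this y).trans (le_of_eq ?_)
    rw [Finset.sum_add_distrib, ← Finset.mul_sum, ← Finset.mul_sum, ha.sum_one, hb.sum_one]
    norm_num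
  have h0 : 0 ≤ ∑ y, (Real.sqrt (a y) - Real.sqrt (b y)) ^ 2 :=
    Finset.sum_nonneg fun _ _ => sq_nonneg _
  nlinarith

/-- POPULARITY. -/
theorem popular_of_ent (p : W → ℝ) (hp : IsPM p) (K : AddSubgroup W) {α : Type*} (π : W → α)
    (hπ : ∀ x y, π x = π y ↔ x - y ∈ K)
    (hη : Real.log (Nat.card K) - (ent p id - ent p π) ≤ 1 / 400) (v : W) (hv : v ∈ K) :
    (4 / 5) / (Nat.card W : ℝ) ≤ ∑ y, p y * p (y + v) := by
  classical
  have hcK : (0 : ℝ) < Nat.card K := by exact_mod_cast Nat.card_pos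
  have hcW : (0 : ℝ) < Nat.card W := by exact_mod_cast Nat.card_pos
  set b : W → ℝ := avg K p with hb
  have hb0 : ∀ y, 0 ≤ b y := fun y =>
    div_nonneg (Finset.sum_nonneg fun u _ => hp.nonneg _) hcK.le
  have hinv : ∀ v ∈ K, ∀ y, b (y + v) = b y := fun v hv y => avg_inv K p hv y
  have hbs : ∑ y, b y = 1 := by
    have := sum_avg K (fun _ => 1) p (fun _ _ _ => rfl)
    simpa [hp.sum_one] using this
  have hbPM : IsPM b := ⟨hb0, hbs⟩
  have hbfib : ∀ y, b y = fib p π y / Nat.card K := fun y => by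
    rw [fib_mkQ K π hπ]; rfl
  have hab : ∀ y, b y = 0 → p y = 0 := by
    intro y hy
    rw [hbfib] at hy
    have h1 : fib p π y = 0 := by
      rcases div_eq_zero_iff.1 hy with h | h
      · exact h
      · exact absurd h hcK.ne'
    exact le_antisymm (h1 ▸ le_fib hp π y) (hp.nonneg y)
  have hKL : ∑ y, p y * (Real.log (p y) - Real.log (b y))
      = Real.log (Nat.card K) - (ent p id - ent p π) := by
    have h1 : ∀ y, p y * (Real.log (p y) - Real.log (b y))
        = p y * Real.log (Nat.card K) - (p y * (-Real.log (fib p id y))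
          - p y * (-Real.log (fib p π y))) := by
      intro y
      have h2 : fib p id y = p y := by
        unfold fib; simp
      rw [h2]
      rcases (hp.nonneg y).eq_or_lt with h | h
      · rw [← h]; simp
      · rw [hbfib, Real.log_div (fib_pos hp π h).ne' hcK.ne']
        ring
    simp only [h1, Finset.sum_sub_distrib, ← Finset.sum_mul, hp.sum_one]
    unfold ent
    ring
  have hl1 : ∑ y, |p y - b y| ≤ 1 / 10 := by
    have h1 := hel_le p b hp hbPM hab
    have h2 := l1_sq_le p b hp hbPM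
    rw [hKL] at h1
    have h3 : (∑ y, |p y - b y|) ^ 2 ≤ (1 / 10) ^ 2 := by nlinarith
    exact (abs_le_of_sq_le_sq h3 (by norm_num)).trans' (le_abs_self _)
  set m : W → ℝ := fun y => min (p y) (b y) with hm
  have hm0 : ∀ y, 0 ≤ m y := fun y => le_min (hp.nonneg y) (hb0 y)
  have hmp : ∀ y, m y ≤ p y := fun y => min_le_left _ _
  have hmb : ∀ y, m y ≤ b y := fun y => min_le_right _ _
  have hms : 19 / 20 ≤ ∑ y, m y := by
    have h1 : ∀ y, m y = (p y + b y - |p y - b y|) / 2 := fun y => by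
      simp only [hm]; rw [min_def]
      split_ifs with h
      · rw [abs_of_nonpos (by linarith)]; ring
      · rw [abs_of_nonneg (by linarith)]; ring
    simp only [h1]
    rw [← Finset.sum_div, Finset.sum_sub_distrib, Finset.sum_add_distrib, hp.sum_one, hbs]
    linarith
  set T : W → ℝ := avg K m with hT
  have hTb : ∀ y, T y ≤ b y := fun y => by
    simp only [hT, avg]
    rw [div_le_iff₀ hcK]
    calc ∑ u : K, m (y + u) ≤ ∑ u : K, b (y + u) := Finset.sum_le_sum fun u _ => hmb _
      _ = ∑ _u : K, b y := Finset.sum_congr rfl fun u _ => hinv u u.2 y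
      _ = b y * Nat.card K := by
          rw [Finset.sum_const, nsmul_eq_mul, Finset.card_univ, Nat.card_eq_fintype_card]; ring
  have hTinv : ∀ v ∈ K, ∀ y, T (y + v) = T y := fun v hv y => avg_inv K m hv y
  set q : W → ℝ := fun y => max 0 (2 * T y - b y) with hq
  set χ : W → ℝ := fun y => if 0 < 2 * T y - b y then 1 else 0 with hχ
  have hχ0 : ∀ y, 0 ≤ χ y := fun y => by simp only [hχ]; split_ifs <;> norm_num
  have hχ1 : ∀ y, χ y ≤ 1 := fun y => by simp only [hχ]; split_ifs <;> norm_num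
  have hχinv : ∀ v ∈ K, ∀ y, χ (y + v) = χ y := fun v hv y => by
    simp only [hχ]; rw [hTinv v hv, hinv v hv]
  have hqχ : ∀ y, q y = χ y * (2 * T y - b y) := fun y => by
    simp only [hq, hχ]
    split_ifs with h
    · rw [max_eq_right h.le, one_mul]
    · rw [max_eq_left (not_lt.1 h), zero_mul]
  have hq0 : ∀ y, 0 ≤ q y := fun y => le_max_left _ _
  have hqb : ∀ y, q y ≤ b y := fun y => by
    simp only [hq]
    exact max_le (hb0 y) (by linarith [hTb y])
  -- step 1
  have s1 : ∑ y, b y * q y ≤ ∑ y, p y * p (y + v) := by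
    have e1 : ∑ y, b y * q y = ∑ y, (χ y * b y) * (2 * T y - b y) :=
      Finset.sum_congr rfl fun y _ => by rw [hqχ]; ring
    have hg : ∀ v ∈ K, ∀ y, (fun y => χ y * b y) (y + v) = (fun y => χ y * b y) y :=
      fun v hv y => by simp only; rw [hχinv v hv, hinv v hv]
    have e2 : ∑ y, (χ y * b y) * T y = ∑ y, (χ y * b y) * m y :=
      sum_avg K (fun y => χ y * b y) m hg
    have e3 : ∑ y, (χ y * b y) * m (y + v) = ∑ y, (χ y * b y) * m y :=
      sum_inv_shift (fun y => χ y * b y) m v (hg v hv)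
    have e4 : ∑ y, (χ y * b y) * (2 * T y - b y)
        = ∑ y, (χ y * b y) * (m y + m (y + v) - b y) := by
      have l1 : ∑ y, (χ y * b y) * (2 * T y - b y)
          = 2 * ∑ y, (χ y * b y) * T y - ∑ y, (χ y * b y) * b y := by
        rw [Finset.mul_sum, ← Finset.sum_sub_distrib]
        exact Finset.sum_congr rfl fun y _ => by ring
      have l2 : ∑ y, (χ y * b y) * (m y + m (y + v) - b y)
          = ∑ y, (χ y * b y) * m y + ∑ y, (χ y * b y) * m (y + v)
            - ∑ y, (χ y * b y) * b y := by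
        rw [← Finset.sum_add_distrib, ← Finset.sum_sub_distrib]
        exact Finset.sum_congr rfl fun y _ => by ring
      rw [l1, l2, e2, e3]; ring
    rw [e1, e4]
    refine Finset.sum_le_sum fun y _ => ?_
    have h1 : 0 ≤ (b y - m y) * (b y - m (y + v)) :=
      mul_nonneg (by linarith [hmb y]) (by linarith [hmb (y + v), hinv v hv y])
    have h2 : m y * m (y + v) ≤ p y * p (y + v) :=
      mul_le_mul (hmp y) (hmp _) (hm0 _) (hp.nonneg y)
    have h3 : b y * (m y + m (y + v) - b y) ≤ m y * m (y + v) := by nlinarith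
    have h4 : 0 ≤ m y * m (y + v) := mul_nonneg (hm0 _) (hm0 _)
    calc χ y * b y * (m y + m (y + v) - b y) = χ y * (b y * (m y + m (y + v) - b y)) := by ring
      _ ≤ χ y * (m y * m (y + v)) := mul_le_mul_of_nonneg_left h3 (hχ0 y)
      _ ≤ 1 * (m y * m (y + v)) := mul_le_mul_of_nonneg_right (hχ1 y) h4
      _ ≤ p y * p (y + v) := by rw [one_mul]; exact h2
  -- step 2
  have s2 : 9 / 10 ≤ ∑ y, q y := by
    have e1 : ∑ y, T y = ∑ y, m y := by
      have := sum_avg K (fun _ => 1) m (fun _ _ _ => rfl)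
      simpa using this
    calc (9 / 10 : ℝ) ≤ 2 * ∑ y, m y - 1 := by linarith
      _ = ∑ y, (2 * T y - b y) := by
          rw [Finset.sum_sub_distrib, ← Finset.mul_sum, e1, hbs]
      _ ≤ ∑ y, q y := Finset.sum_le_sum fun y _ => le_max_right _ _
  -- step 3
  have s3 : (∑ y, q y) ^ 2 ≤ (∑ y, b y * q y) * Nat.card W := by
    have e1 : ∀ y, q y = Real.sqrt (b y * q y) * Real.sqrt (q y / b y) := by
      intro y
      rcases (hb0 y).eq_or_lt with h | h
      · have : q y = 0 := le_antisymm (h ▸ hqb y) (hq0 y)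
        rw [this]; simp
      · rw [← Real.sqrt_mul (mul_nonneg (hb0 y) (hq0 y))]
        have : b y * q y * (q y / b y) = q y * q y := by field_simp
        rw [this, Real.sqrt_mul_self (hq0 y)]
    have e2 := Finset.sum_mul_sq_le_sq_mul_sq Finset.univ
      (fun y => Real.sqrt (b y * q y)) (fun y => Real.sqrt (q y / b y))
    have e3 : ∑ y, q y = ∑ y, Real.sqrt (b y * q y) * Real.sqrt (q y / b y) :=
      Finset.sum_congr rfl fun y _ => e1 y
    rw [← e3] at e2
    refine e2.trans ?_
    have e4 : ∑ y, Real.sqrt (b y * q y) ^ 2 = ∑ y, b y * q y :=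
      Finset.sum_congr rfl fun y _ => Real.sq_sqrt (mul_nonneg (hb0 y) (hq0 y))
    have e5 : ∑ y, Real.sqrt (q y / b y) ^ 2 ≤ Nat.card W := by
      calc ∑ y, Real.sqrt (q y / b y) ^ 2 ≤ ∑ _y : W, (1 : ℝ) := by
            refine Finset.sum_le_sum fun y _ => ?_
            rw [Real.sq_sqrt (div_nonneg (hq0 y) (hb0 y))]
            exact div_le_one_of_le₀ (hqb y) (hb0 y)
        _ = Nat.card W := by simp
    rw [e4]
    exact mul_le_mul_of_nonneg_left e5
      (Finset.sum_nonneg fun y _ => mul_nonneg (hb0 y) (hq0 y))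
  rw [div_le_iff₀ hcW]
  have h1 : (9 / 10 : ℝ) ^ 2 ≤ (∑ y, q y) ^ 2 := by gcongr
  calc (4 / 5 : ℝ) ≤ (9 / 10) ^ 2 := by norm_num
    _ ≤ (∑ y, b y * q y) * Nat.card W := h1.trans s3
    _ ≤ (∑ y, p y * p (y + v)) * Nat.card W := by gcongr

end

end Pool.Agent.H96.F2
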