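import Pool.Agent.H96.F2.Bog

/-! The upper bound in its final form, from (E''). -/

set_option autoImplicit false

namespace F2

open H2INV Finset Pool.Agent.H96.F2

noncomputable section

namespace B

/-- the number of representations as a filter of all tuples -/
lemma rk_eq (n k : ℕ) (A : Finset (Fin n → ZMod 2)) (v : Fin n → ZMod 2) :
    rk A k v = (Finset.univ.filter fun x : Fin k → (Fin n → ZMod 2) =>
      (∀ i, x i ∈ A) ∧ ∑ i, x i = v).card := by
  classical
  unfold rk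
  congr 1
  ext x
  simp [Fintype.mem_piFinset]

/-- UPPER BOUND, `k` pairs of summands, `C` absolute. -/
theorem upper {C : ℝ} (hC : 1 ≤ C) (hE : EPP C) :
    ∃ C' : ℝ, 0 < C' ∧ ∀ k : ℕ, 2 ≤ k → ∀ n : ℕ, ∀ A : Finset (Fin n → ZMod 2), A.Nonempty →
      ∃ V : Submodule (ZMod 2) (Fin n → ZMod 2),
        (n : ℝ) - Module.finrank (ZMod 2) V ≤
          C' * (Real.log ((2 : ℝ) ^ n / A.card)) ^ ((k : ℝ) / ((k : ℝ) - 1)) ∧
        ∀ v ∈ V, (4 / 5) * (A.card : ℝ) ^ (2 * k) / (2 : ℝ) ^ n ≤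
          ((Finset.univ.filter fun x : Fin (2 * k) → (Fin n → ZMod 2) =>
            (∀ i, x i ∈ A) ∧ ∑ i, x i = v).card : ℝ) := by
  classical
  have hl2 : 0 < Real.log 2 := Real.log_pos (by norm_num)
  refine ⟨400 * C / Real.log 2, by positivity, ?_⟩
  intro k hk n A hA
  obtain ⟨j, rfl⟩ : ∃ j, k = j + 1 := ⟨k - 1, by omega⟩
  have hj : 1 ≤ j := by omega
  obtain ⟨V, hV1, hV2⟩ := bog hC hE (Fin n → ZMod 2) A hA j hj
  have hcard : (Nat.card (Fin n → ZMod 2) : ℝ) = (2 : ℝ) ^ n := by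
    rw [Nat.card_eq_fintype_card]
    simp [ZMod.card]
  refine ⟨AddSubgroup.toZModSubmodule 2 V, ?_, ?_⟩
  · have h1 : ls (⊤ : AddSubgroup (Fin n → ZMod 2)) = n * Real.log 2 := by
      unfold ls
      have : Nat.card (⊤ : AddSubgroup (Fin n → ZMod 2)) = Nat.card (Fin n → ZMod 2) :=
        Nat.card_congr AddSubgroup.topEquiv.toEquiv
      rw [this, hcard, Real.log_pow]
    have h2 : ls V = Module.finrank (ZMod 2) (AddSubgroup.toZModSubmodule 2 V) * Real.log 2 := by
      unfold ls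
      have h3 := Module.natCard_eq_pow_finrank (K := ZMod 2)
        (V := (AddSubgroup.toZModSubmodule 2 V))
      have h4 : Nat.card V = Nat.card (AddSubgroup.toZModSubmodule 2 V) := rfl
      rw [h4, h3]
      simp
    rw [h1, h2, hcard, ← sub_mul] at hV1
    have h5 : ((j + 1 : ℕ) : ℝ) / (((j + 1 : ℕ) : ℝ) - 1) = 1 + 1 / (j : ℝ) := by
      have hjr : (0 : ℝ) < j := by exact_mod_cast hj
      push_cast
      rw [add_sub_cancel_right]
      field_simp
    rw [h5, div_mul_eq_mul_div, le_div_iff₀ hl2]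
    exact hV1
  · intro v hv
    have h1 := hV2 v ((AddSubgroup.mem_toZModSubmodule 2).1 hv)
    rw [hcard, rk_eq] at h1
    exact h1

end B

end

end F2
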